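import Mathlib

/-! Gaussian measure on matrices: density, translations. -/

set_option autoImplicit false
open MeasureTheory Measure Set ProbabilityTheory
open scoped ENNReal NNReal

namespace Pool.Agent.H988R2

theorem lintegral_fin_prod {n : ℕ} (μ : Fin n → Measure ℝ)
    [∀ i, SigmaFinite (μ i)] (f : Fin n → ℝ → ℝ≥0∞) (hf : ∀ i, Measurable (f i)) :
    ∫⁻ x : Fin n → ℝ, ∏ i, f i (x i) ∂(Measure.pi μ) = ∏ i, ∫⁻ x, f i x ∂(μ i) := by
  induction n with
  | zero => simp
  | succ n n_ih =>
      calc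
        _ = ∫⁻ x : ℝ × (Fin n → ℝ),
            f 0 x.1 * ∏ i : Fin n, f (Fin.succ i) (x.2 i)
            ∂((μ 0).prod (Measure.pi (fun i ↦ μ i.succ))) := by
          rw [← ((measurePreserving_piFinSuccAbove μ 0).symm).lintegral_comp_emb
            (MeasurableEquiv.measurableEmbedding _)]
          simp_rw [MeasurableEquiv.piFinSuccAbove_symm_apply, Fin.insertNthEquiv,
            Fin.prod_univ_succ, Fin.insertNth_zero, Equiv.coe_fn_mk, Fin.cons_succ,
            Fin.zero_succAbove, cast_eq, Fin.cons_zero]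
        _ = (∫⁻ x, f 0 x ∂μ 0)
            * ∏ i : Fin n, ∫⁻ (x : ℝ), f (Fin.succ i) x ∂(μ i.succ) := by
          rw [← n_ih (fun i => μ i.succ) (fun i => f i.succ) (fun i => hf _)]
          exact lintegral_prod_mul (hf 0).aemeasurable (Finset.measurable_prod _ (fun i _ =>
            (hf _).comp (measurable_pi_apply i))).aemeasurable
        _ = ∏ i, ∫⁻ x, f i x ∂(μ i) := by rw [Fin.prod_univ_succ]

theorem lintegral_fintype_prod {ι : Type*} [Fintype ι] (μ : ι → Measure ℝ)
    [∀ i, SigmaFinite (μ i)] (f : ι → ℝ → ℝ≥0∞) (hf : ∀ i, Measurable (f i)) :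
    ∫⁻ x : ι → ℝ, ∏ i, f i (x i) ∂(Measure.pi μ) = ∏ i, ∫⁻ x, f i x ∂(μ i) := by
  let e := (Fintype.equivFin ι).symm
  rw [← (measurePreserving_piCongrLeft _ e).lintegral_comp_emb
    (MeasurableEquiv.measurableEmbedding _)]
  simp_rw [← e.prod_comp, MeasurableEquiv.coe_piCongrLeft, Equiv.piCongrLeft_apply_apply]
  exact lintegral_fin_prod (fun i => μ (e i)) (fun i => f (e i)) (fun i => hf _)

theorem pi_withDensity_real {ι : Type*} [Fintype ι] (g : ι → ℝ → ℝ≥0∞) (hg : ∀ i, Measurable (g i))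
    (_hs : ∀ i, SigmaFinite ((volume : Measure ℝ).withDensity (g i))) :
    Measure.pi (fun i => (volume : Measure ℝ).withDensity (g i)) =
      (volume : Measure (ι → ℝ)).withDensity (fun y => ∏ i, g i (y i)) := by
  rw [volume_pi]
  apply Measure.pi_eq
  intro s hs
  rw [withDensity_apply _ (MeasurableSet.univ_pi hs), Measure.restrict_pi_pi,
    lintegral_fintype_prod _ _ hg]
  apply Finset.prod_congr rfl
  intro i _
  rw [withDensity_apply _ (hs i)]

/-- The standard Gaussian density on `EuclideanSpace ℝ ι`. -/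
noncomputable def gdens (ι : Type*) [Fintype ι] (x : EuclideanSpace ℝ ι) : ℝ :=
  ((Real.sqrt (2 * Real.pi))⁻¹) ^ (Fintype.card ι) * Real.exp (-‖x‖ ^ 2 / 2)

theorem gdens_pos (ι : Type*) [Fintype ι] (x : EuclideanSpace ℝ ι) : 0 < gdens ι x := by
  unfold gdens
  positivity

theorem continuous_gdens (ι : Type*) [Fintype ι] : Continuous (gdens ι) := by
  unfold gdens
  fun_prop

theorem gdens_sub (ι : Type*) [Fintype ι] (x a : EuclideanSpace ℝ ι) :
    gdens ι (x - a) = gdens ι x * Real.exp (inner ℝ x a - ‖a‖ ^ 2 / 2) := by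
  unfold gdens
  rw [mul_assoc, ← Real.exp_add]
  congr 2
  rw [norm_sub_sq_real]
  ring

/-- The standard Gaussian measure on Euclidean space is given by its density. -/
theorem stdGaussian_eq (ι : Type*) [Fintype ι] :
    stdGaussian (EuclideanSpace ℝ ι) =
      (volume : Measure (EuclideanSpace ℝ ι)).withDensity
        (fun x => ENNReal.ofReal (gdens ι x)) := by
  rw [← map_pi_eq_stdGaussian]
  have h3 : (fun _ : ι => gaussianReal 0 1) =
      fun _ : ι => (volume : Measure ℝ).withDensity (gaussianPDF 0 1) := by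
    funext _
    exact gaussianReal_of_var_ne_zero 0 one_ne_zero
  have hsf : ∀ _ : ι, SigmaFinite ((volume : Measure ℝ).withDensity
      (gaussianPDF 0 1)) := by
    intro _
    rw [← gaussianReal_of_var_ne_zero 0 one_ne_zero]
    infer_instance
  rw [h3, pi_withDensity_real (fun _ : ι => gaussianPDF 0 1) (fun _ => measurable_gaussianPDF 0 1)
    hsf]
  have h1 : ∀ y : ι → ℝ, ∏ i, gaussianPDF 0 1 (y i) =
      ENNReal.ofReal (gdens ι (WithLp.toLp 2 y)) := by
    intro y
    have h2 : ∀ i, gaussianPDF 0 1 (y i) =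
        ENNReal.ofReal ((Real.sqrt (2 * Real.pi))⁻¹ * Real.exp (-(y i ^ 2) / 2)) := by
      intro i
      rw [gaussianPDF_def, gaussianPDFReal_def]
      simp
    simp_rw [h2]
    rw [← ENNReal.ofReal_prod_of_nonneg (fun i _ => by positivity)]
    congr 1
    rw [Finset.prod_mul_distrib, Finset.prod_const, Finset.card_univ, ← Real.exp_sum]
    unfold gdens
    congr 2
    rw [← Finset.sum_div, Finset.sum_neg_distrib, EuclideanSpace.norm_sq_eq]
    simp
  simp_rw [h1]
  have hmp := PiLp.volume_preserving_toLp ι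
  ext s hs
  have hmeas : Measurable (WithLp.toLp 2 : (ι → ℝ) → EuclideanSpace ℝ ι) := hmp.measurable
  rw [Measure.map_apply hmeas hs, withDensity_apply _ (hmeas hs), withDensity_apply _ hs,
    ← hmp.setLIntegral_comp_preimage hs]
  exact (continuous_gdens ι).measurable.ennreal_ofReal

theorem stdGaussian_ac (ι : Type*) [Fintype ι] :
    stdGaussian (EuclideanSpace ℝ ι) ≪ (volume : Measure (EuclideanSpace ℝ ι)) := by
  rw [stdGaussian_eq]
  exact withDensity_absolutelyContinuous _ _

theorem integral_stdGaussian (ι : Type*) [Fintype ι] (f : EuclideanSpace ℝ ι → ℝ) :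
    ∫ x, f x ∂(stdGaussian (EuclideanSpace ℝ ι)) = ∫ x, gdens ι x * f x := by
  rw [stdGaussian_eq, integral_withDensity_eq_integral_toReal_smul
    (continuous_gdens ι).measurable.ennreal_ofReal (Filter.Eventually.of_forall fun x =>
      ENNReal.ofReal_lt_top)]
  refine integral_congr_ae (Filter.Eventually.of_forall fun x => ?_)
  simp only [smul_eq_mul]
  rw [ENNReal.toReal_ofReal (gdens_pos ι x).le]

/-- Cameron-Martin. -/
theorem integral_stdGaussian_add (ι : Type*) [Fintype ι] (f : EuclideanSpace ℝ ι → ℝ)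
    (a : EuclideanSpace ℝ ι) :
    ∫ x, f (x + a) ∂(stdGaussian (EuclideanSpace ℝ ι)) =
      Real.exp (-‖a‖ ^ 2 / 2) *
        ∫ x, Real.exp (inner ℝ x a) * f x ∂(stdGaussian (EuclideanSpace ℝ ι)) := by
  rw [integral_stdGaussian, integral_stdGaussian, ← integral_const_mul]
  have h := integral_add_right_eq_self (μ := (volume : Measure (EuclideanSpace ℝ ι)))
    (fun x => gdens ι (x - a) * f x) a
  simp only [add_sub_cancel_right] at h
  rw [h]
  refine integral_congr_ae (Filter.Eventually.of_forall fun x => ?_)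
  simp only
  rw [gdens_sub, show inner ℝ x a - ‖a‖ ^ 2 / 2 = -‖a‖ ^ 2 / 2 + inner ℝ x a by ring, Real.exp_add]
  ring

/-- Translates of null sets are null. -/
theorem ae_add_of_ae_volume (ι : Type*) [Fintype ι] {p : EuclideanSpace ℝ ι → Prop}
    (h : ∀ᵐ x ∂(volume : Measure (EuclideanSpace ℝ ι)), p x) (a : EuclideanSpace ℝ ι) :
    ∀ᵐ x ∂(stdGaussian (EuclideanSpace ℝ ι)), p (x + a) := by
  apply (stdGaussian_ac ι).ae_le
  exact (quasiMeasurePreserving_add_right (volume : Measure (EuclideanSpace ℝ ι)) a).ae h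

end Pool.Agent.H988R2
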