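import Mathlib

/-! The smallest singular value of a real square matrix. -/

set_option autoImplicit false
open MeasureTheory ProbabilityTheory Set Metric

namespace Pool.Agent.H988R2

variable {n : ℕ}

/-- Euclidean space. -/
abbrev U (n : ℕ) := EuclideanSpace ℝ (Fin n)

/-- The operator of the matrix `X`. -/
noncomputable def T (X : Fin n → Fin n → ℝ) : U n →L[ℝ] U n :=
  Matrix.toEuclideanCLM (n := Fin n) (𝕜 := ℝ) (Matrix.of X)

lemma T_add (X Y : Fin n → Fin n → ℝ) : T (X + Y) = T X + T Y := by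
  unfold T
  rw [show Matrix.of (X + Y) = Matrix.of X + Matrix.of Y from rfl, map_add]

lemma T_smul (c : ℝ) (X : Fin n → Fin n → ℝ) : T (c • X) = c • T X := by
  unfold T
  rw [show Matrix.of (c • X) = c • Matrix.of X from rfl, map_smul]

/-- `T` as a continuous linear map. -/
noncomputable def TL (n : ℕ) : (Fin n → Fin n → ℝ) →L[ℝ] (U n →L[ℝ] U n) :=
  LinearMap.toContinuousLinearMap
    { toFun := T
      map_add' := T_add
      map_smul' := T_smul }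

lemma TL_apply (X : Fin n → Fin n → ℝ) : TL n X = T X := rfl

lemma norm_T_sub_le (X Y : Fin n → Fin n → ℝ) : ‖T X - T Y‖ ≤ ‖TL n‖ * ‖X - Y‖ := by
  rw [← TL_apply, ← TL_apply, ← map_sub]
  exact (TL n).le_opNorm _

/-- The smallest singular value. -/
noncomputable def smin (X : Fin n → Fin n → ℝ) : ℝ :=
  sInf ((fun v : U n => ‖T X v‖) '' sphere (0 : U n) 1)

lemma bddBelow (X : Fin n → Fin n → ℝ) :
    BddBelow ((fun v : U n => ‖T X v‖) '' sphere (0 : U n) 1) :=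
  ⟨0, by rintro _ ⟨v, _, rfl⟩; exact norm_nonneg _⟩

lemma smin_le (X : Fin n → Fin n → ℝ) {v : U n} (hv : ‖v‖ = 1) : smin X ≤ ‖T X v‖ :=
  csInf_le (bddBelow X) ⟨v, by simpa using hv, rfl⟩

lemma sphere_nonempty (hn : 0 < n) : (sphere (0 : U n) 1).Nonempty := by
  have : Nontrivial (U n) := by
    have : Nonempty (Fin n) := ⟨⟨0, hn⟩⟩
    infer_instance
  exact NormedSpace.sphere_nonempty.mpr zero_le_one

lemma exists_min (hn : 0 < n) (X : Fin n → Fin n → ℝ) :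
    ∃ v : U n, ‖v‖ = 1 ∧ ‖T X v‖ = smin X := by
  obtain ⟨v, hv, hmin⟩ := (isCompact_sphere (0 : U n) 1).exists_isMinOn (sphere_nonempty hn)
    (f := fun v => ‖T X v‖) ((T X).continuous.norm.continuousOn)
  refine ⟨v, by simpa using hv, le_antisymm ?_ (smin_le X (by simpa using hv))⟩
  apply le_csInf ((sphere_nonempty hn).image _)
  rintro _ ⟨w, hw, rfl⟩
  exact hmin hw

lemma smin_nonneg (X : Fin n → Fin n → ℝ) : 0 ≤ smin X :=
  Real.sInf_nonneg (by rintro _ ⟨v, _, rfl⟩; exact norm_nonneg _)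

lemma smin_mul_le (X : Fin n → Fin n → ℝ) (v : U n) : smin X * ‖v‖ ≤ ‖T X v‖ := by
  by_cases hv : v = 0
  · simp [hv]
  have hv' : 0 < ‖v‖ := norm_pos_iff.mpr hv
  have h1 : ‖(‖v‖⁻¹ • v)‖ = 1 := by
    rw [norm_smul, norm_inv, norm_norm, inv_mul_cancel₀ hv'.ne']
  have h2 := smin_le X h1
  rw [map_smul, norm_smul, norm_inv, norm_norm] at h2
  calc smin X * ‖v‖ ≤ (‖v‖⁻¹ * ‖T X v‖) * ‖v‖ := mul_le_mul_of_nonneg_right h2 hv'.le
    _ = ‖T X v‖ := by field_simp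

lemma smin_sub_le (hn : 0 < n) (X Y : Fin n → Fin n → ℝ) :
    smin X - smin Y ≤ ‖TL n‖ * ‖X - Y‖ := by
  obtain ⟨v, hv, h⟩ := exists_min hn Y
  have h1 := smin_le X hv
  have h2 : ‖T X v‖ ≤ ‖T Y v‖ + ‖T X - T Y‖ * ‖v‖ := by
    calc ‖T X v‖ = ‖T Y v + (T X - T Y) v‖ := by simp
      _ ≤ ‖T Y v‖ + ‖(T X - T Y) v‖ := norm_add_le _ _
      _ ≤ _ := by gcongr; exact (T X - T Y).le_opNorm v
  have h3 := norm_T_sub_le X Y
  rw [hv, mul_one] at h2
  linarith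

lemma smin_lipschitz (hn : 0 < n) : LipschitzWith ‖TL n‖₊ (smin (n := n)) := by
  apply LipschitzWith.of_dist_le_mul
  intro X Y
  rw [Real.dist_eq, dist_eq_norm, abs_le]
  have h1 := smin_sub_le hn X Y
  have h2 := smin_sub_le hn Y X
  rw [norm_sub_rev] at h2
  constructor
  · simp only [coe_nnnorm]; linarith
  · simpa using h1

/-- right multiplication by a matrix. -/
noncomputable def rmul (O : Matrix (Fin n) (Fin n) ℝ) (X : Fin n → Fin n → ℝ) : Fin n → Fin n → ℝ :=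
  fun i j => ∑ k, X i k * O k j

lemma of_rmul (O : Matrix (Fin n) (Fin n) ℝ) (X : Fin n → Fin n → ℝ) :
    Matrix.of (rmul O X) = Matrix.of X * O := by
  ext i j
  simp [rmul, Matrix.mul_apply]

lemma T_rmul (O : Matrix (Fin n) (Fin n) ℝ) (X : Fin n → Fin n → ℝ) (v : U n) :
    T (rmul O X) v = T X (Matrix.toEuclideanCLM (n := Fin n) (𝕜 := ℝ) O v) := by
  unfold T
  rw [of_rmul, map_mul]
  rfl

lemma norm_orth (O : Matrix (Fin n) (Fin n) ℝ) (hO : O ∈ Matrix.orthogonalGroup (Fin n) ℝ)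
    (v : U n) : ‖Matrix.toEuclideanCLM (n := Fin n) (𝕜 := ℝ) O v‖ = ‖v‖ := by
  have h : O.transpose * O = 1 := (Matrix.mem_orthogonalGroup_iff' (Fin n) ℝ).mp hO
  have h1 : ‖Matrix.toEuclideanCLM (n := Fin n) (𝕜 := ℝ) O v‖ ^ 2 = ‖v‖ ^ 2 := by
    rw [← real_inner_self_eq_norm_sq, ← real_inner_self_eq_norm_sq]
    rw [EuclideanSpace.inner_eq_star_dotProduct, EuclideanSpace.inner_eq_star_dotProduct]
    simp only [Matrix.ofLp_toEuclideanCLM, star_trivial]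
    rw [Matrix.dotProduct_mulVec, Matrix.vecMul_mulVec, h, Matrix.vecMul_one]
  exact (sq_eq_sq₀ (norm_nonneg _) (norm_nonneg _)).mp h1

lemma smin_rmul_le (hn : 0 < n) (O : Matrix (Fin n) (Fin n) ℝ)
    (hO : O ∈ Matrix.orthogonalGroup (Fin n) ℝ) (X : Fin n → Fin n → ℝ) :
    smin X ≤ smin (rmul O X) := by
  obtain ⟨v, hv, h⟩ := exists_min hn (rmul O X)
  rw [← h, T_rmul]
  exact smin_le X (by rw [norm_orth O hO, hv])

lemma rmul_rmul (O P : Matrix (Fin n) (Fin n) ℝ) (X : Fin n → Fin n → ℝ) :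
    rmul P (rmul O X) = rmul (O * P) X := by
  apply Matrix.of.injective
  rw [of_rmul, of_rmul, of_rmul, Matrix.mul_assoc]

lemma rmul_one (X : Fin n → Fin n → ℝ) : rmul 1 X = X := by
  apply Matrix.of.injective
  rw [of_rmul, Matrix.mul_one]

lemma smin_rmul (hn : 0 < n) (O : Matrix (Fin n) (Fin n) ℝ)
    (hO : O ∈ Matrix.orthogonalGroup (Fin n) ℝ) (X : Fin n → Fin n → ℝ) :
    smin (rmul O X) = smin X := by
  apply le_antisymm _ (smin_rmul_le hn O hO X)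
  have hO' : O.transpose ∈ Matrix.orthogonalGroup (Fin n) ℝ := by
    rw [Matrix.mem_orthogonalGroup_iff]
    simpa using (Matrix.mem_orthogonalGroup_iff' (Fin n) ℝ).mp hO
  have h := smin_rmul_le hn _ hO' (rmul O X)
  rwa [rmul_rmul, (Matrix.mem_orthogonalGroup_iff (Fin n) ℝ).mp hO, rmul_one] at h

/-! ### Relation with the norm of the inverse -/

lemma smin_le_of_le_norm_inv (hn : 0 < n) (X : Fin n → Fin n → ℝ) {c : ℝ} (hc : 0 < c)
    (h : c ≤ ‖Matrix.toEuclideanCLM (n := Fin n) (𝕜 := ℝ) (Matrix.of X)⁻¹‖) :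
    smin X ≤ c⁻¹ := by
  by_contra hcon
  push Not at hcon
  have hs : 0 < smin X := lt_trans (inv_pos.mpr hc) hcon
  by_cases hdet : IsUnit (Matrix.of X).det
  · have h2 : ‖Matrix.toEuclideanCLM (n := Fin n) (𝕜 := ℝ) (Matrix.of X)⁻¹‖ ≤ (smin X)⁻¹ := by
      apply ContinuousLinearMap.opNorm_le_bound _ (inv_pos.mpr hs).le
      intro w
      have h3 := smin_mul_le X (Matrix.toEuclideanCLM (n := Fin n) (𝕜 := ℝ) (Matrix.of X)⁻¹ w)
      have h4 : T X (Matrix.toEuclideanCLM (n := Fin n) (𝕜 := ℝ) (Matrix.of X)⁻¹ w) = w := by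
        unfold T
        rw [← ContinuousLinearMap.mul_apply, ← map_mul, Matrix.mul_nonsing_inv _ hdet, map_one]
        rfl
      rw [h4] at h3
      rw [inv_mul_eq_div, le_div_iff₀ hs]
      linarith
    have h3 : (smin X)⁻¹ < c := inv_lt_of_inv_lt₀ hc hcon
    linarith
  · rw [Matrix.nonsing_inv_apply_not_isUnit _ hdet, map_zero, norm_zero] at h
    linarith

lemma le_norm_inv_of_smin_le (hn : 0 < n) (X : Fin n → Fin n → ℝ) {c : ℝ} (hc : 0 < c)
    (hdet : (Matrix.of X).det ≠ 0) (h : smin X ≤ c⁻¹) :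
    c ≤ ‖Matrix.toEuclideanCLM (n := Fin n) (𝕜 := ℝ) (Matrix.of X)⁻¹‖ := by
  obtain ⟨v, hv, hmin⟩ := exists_min hn X
  have h1 : Matrix.toEuclideanCLM (n := Fin n) (𝕜 := ℝ) (Matrix.of X)⁻¹ (T X v) = v := by
    unfold T
    rw [← ContinuousLinearMap.mul_apply, ← map_mul,
      Matrix.nonsing_inv_mul _ (isUnit_iff_ne_zero.mpr hdet), map_one]
    rfl
  have h2 := (Matrix.toEuclideanCLM (n := Fin n) (𝕜 := ℝ) (Matrix.of X)⁻¹).le_opNorm (T X v)
  rw [h1, hv, hmin] at h2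
  have h3 : (1 : ℝ) ≤ ‖Matrix.toEuclideanCLM (n := Fin n) (𝕜 := ℝ) (Matrix.of X)⁻¹‖ * c⁻¹ :=
    h2.trans (mul_le_mul_of_nonneg_left h (norm_nonneg _))
  rw [← div_eq_mul_inv, le_div_iff₀ hc] at h3
  linarith

end Pool.Agent.H988R2
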