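import Mathlib
import Pool.Agent.H988R2.SMin
import Pool.Agent.H988R2.Gauss

/-! Monotonicity of the law of the smallest singular value of a Gaussian matrix in its mean. -/

set_option autoImplicit false
open MeasureTheory ProbabilityTheory Set Metric
open scoped RealInnerProductSpace

namespace Pool.Agent.H988R2

variable {n : ℕ}

/-- Matrices with the Frobenius inner product. -/
abbrev W (n : ℕ) := EuclideanSpace ℝ (Fin n × Fin n)

/-- Currying. -/
noncomputable def cur (n : ℕ) : W n →L[ℝ] (Fin n → Fin n → ℝ) :=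
  LinearMap.toContinuousLinearMap
    { toFun := fun w i j => w (i, j)
      map_add' := fun _ _ => rfl
      map_smul' := fun _ _ => rfl }

lemma cur_apply (w : W n) (i j : Fin n) : cur n w i j = w (i, j) := rfl

/-- Smallest singular value. -/
noncomputable def sm (X : W n) : ℝ := smin (cur n X)

lemma sm_lipschitz (hn : 0 < n) : ∃ K, LipschitzWith K (sm (n := n)) :=
  ⟨_, (smin_lipschitz hn).comp (cur n).lipschitz⟩

lemma inner_W (X B : W n) : ⟪X, B⟫ = ∑ i, ∑ j, X (i, j) * B (i, j) := by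
  rw [PiLp.inner_apply, Fintype.sum_prod_type]
  simp [mul_comm]

/-- Right multiplication. -/
noncomputable def RW (O : Matrix (Fin n) (Fin n) ℝ) : W n →ₗ[ℝ] W n where
  toFun w := WithLp.toLp 2 (fun p : Fin n × Fin n => ∑ k, w (p.1, k) * O k p.2)
  map_add' x y := by
    ext p
    simp [add_mul, Finset.sum_add_distrib]
  map_smul' c x := by
    ext p
    simp [Finset.mul_sum, mul_assoc]

lemma cur_RW (O : Matrix (Fin n) (Fin n) ℝ) (X : W n) : cur n (RW O X) = rmul O (cur n X) := by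
  ext i j
  rfl

lemma inner_RW (O : Matrix (Fin n) (Fin n) ℝ) (X B : W n) :
    ⟪RW O X, B⟫ = ∑ i, ∑ j, ∑ k, X (i, k) * O k j * B (i, j) := by
  rw [inner_W]
  refine Finset.sum_congr rfl fun i _ => Finset.sum_congr rfl fun j _ => ?_
  rw [← Finset.sum_mul]
  rfl

lemma norm_RW (O : Matrix (Fin n) (Fin n) ℝ) (hO : O ∈ Matrix.orthogonalGroup (Fin n) ℝ)
    (X : W n) : ‖RW O X‖ = ‖X‖ := by
  have h : O * O.transpose = 1 := (Matrix.mem_orthogonalGroup_iff (Fin n) ℝ).mp hO
  have h1 : ‖RW O X‖ ^ 2 = ‖X‖ ^ 2 := by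
    rw [← real_inner_self_eq_norm_sq, ← real_inner_self_eq_norm_sq, inner_W, inner_W]
    refine Finset.sum_congr rfl fun i _ => ?_
    have h2 : ∀ k l, ∑ j, O k j * O l j = if k = l then (1 : ℝ) else 0 := by
      intro k l
      have := congrFun (congrFun h k) l
      simpa [Matrix.mul_apply, Matrix.one_apply] using this
    have h3 : ∀ j, (RW O X) (i, j) * (RW O X) (i, j) =
        ∑ k, ∑ l, X (i, k) * X (i, l) * (O k j * O l j) := by
      intro j
      change (∑ k, X (i, k) * O k j) * (∑ k, X (i, k) * O k j) = _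
      rw [Finset.sum_mul_sum]
      refine Finset.sum_congr rfl fun k _ => Finset.sum_congr rfl fun l _ => by ring
    rw [Finset.sum_congr rfl fun j _ => h3 j, Finset.sum_comm]
    refine Finset.sum_congr rfl fun k _ => ?_
    rw [Finset.sum_comm]
    simp_rw [← Finset.mul_sum, h2]
    simp
  exact (sq_eq_sq₀ (norm_nonneg _) (norm_nonneg _)).mp h1

/-- Right multiplication by an orthogonal matrix is an isometry. -/
noncomputable def RWi (O : Matrix (Fin n) (Fin n) ℝ) (hO : O ∈ Matrix.orthogonalGroup (Fin n) ℝ) :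
    W n ≃ₗᵢ[ℝ] W n :=
  LinearIsometry.toLinearIsometryEquiv ⟨RW O, norm_RW O hO⟩ rfl

lemma RWi_apply (O : Matrix (Fin n) (Fin n) ℝ) (hO : O ∈ Matrix.orthogonalGroup (Fin n) ℝ)
    (X : W n) : RWi O hO X = RW O X := rfl

/-- The Gaussian measure on matrices. -/
noncomputable abbrev γ (n : ℕ) : Measure (W n) := stdGaussian (W n)

lemma integral_RW (O : Matrix (Fin n) (Fin n) ℝ) (hO : O ∈ Matrix.orthogonalGroup (Fin n) ℝ)
    (f : W n → ℝ) : ∫ X, f (RW O X) ∂(γ n) = ∫ X, f X ∂(γ n) := by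
  have h := stdGaussian_map (RWi O hO)
  have h2 : ∫ X, f X ∂((γ n).map (RWi O hO)) = ∫ X, f (RWi O hO X) ∂(γ n) :=
    integral_map_equiv (RWi O hO).toHomeomorph.toMeasurableEquiv f
  rw [h] at h2
  exact h2.symm

lemma sm_RW (hn : 0 < n) (O : Matrix (Fin n) (Fin n) ℝ)
    (hO : O ∈ Matrix.orthogonalGroup (Fin n) ℝ) (X : W n) : sm (RW O X) = sm X := by
  unfold sm
  rw [cur_RW, smin_rmul hn O hO]

/-! ### The derivative formula -/

lemma lineDeriv_formula {f : ℝ → ℝ} (hf : Differentiable ℝ f) (hmono : Monotone f) (Y B : W n)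
    {w : U n} (hw : ‖w‖ = 1) (hmin : ‖T (cur n Y) w‖ = sm Y) (hpos : 0 < sm Y)
    (hd : LineDifferentiableAt ℝ (fun X => f (sm X)) Y B) :
    lineDeriv ℝ (fun X => f (sm X)) Y B =
      deriv f (sm Y) * (⟪T (cur n Y) w, T (cur n B) w⟫ / sm Y) := by
  have h1 : HasDerivAt (fun t : ℝ => f (sm (Y + t • B)))
      (lineDeriv ℝ (fun X => f (sm X)) Y B) 0 := hd.hasLineDerivAt
  have h2 : HasDerivAt (fun t : ℝ => T (cur n Y) w + t • T (cur n B) w) (T (cur n B) w) 0 := by
    have := ((hasDerivAt_id (0 : ℝ)).smul_const (T (cur n B) w)).const_add (T (cur n Y) w)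
    simpa using this
  have h3 : HasDerivAt (fun t : ℝ => ‖T (cur n Y) w + t • T (cur n B) w‖)
      (⟪T (cur n Y) w, T (cur n B) w⟫ / sm Y) 0 := by
    have h4 : HasDerivAt (fun t : ℝ => ‖T (cur n Y) w + t • T (cur n B) w‖ ^ 2)
        (2 * ⟪T (cur n Y) w + (0 : ℝ) • T (cur n B) w, T (cur n B) w⟫) 0 := h2.norm_sq
    have h5 : (fun t : ℝ => ‖T (cur n Y) w + t • T (cur n B) w‖) =
        fun t : ℝ => Real.sqrt (‖T (cur n Y) w + t • T (cur n B) w‖ ^ 2) := by
      ext t
      rw [Real.sqrt_sq (norm_nonneg _)]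
    rw [h5]
    have h6 : ‖T (cur n Y) w + (0 : ℝ) • T (cur n B) w‖ ^ 2 ≠ 0 := by
      rw [zero_smul, add_zero, hmin]
      positivity
    convert h4.sqrt h6 using 1
    rw [zero_smul, add_zero, hmin, Real.sqrt_sq hpos.le]
    field_simp
  have h4 : HasDerivAt (fun t : ℝ => f (‖T (cur n Y) w + t • T (cur n B) w‖))
      (deriv f (sm Y) * (⟪T (cur n Y) w, T (cur n B) w⟫ / sm Y)) 0 := by
    have h5 : HasDerivAt f (deriv f (sm Y)) (‖T (cur n Y) w + (0 : ℝ) • T (cur n B) w‖) := by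
      rw [zero_smul, add_zero, hmin]
      exact (hf _).hasDerivAt
    exact h5.comp 0 h3
  have h5 := h4.sub h1
  have h6 : IsLocalMin ((fun t : ℝ => f (‖T (cur n Y) w + t • T (cur n B) w‖)) -
      fun t : ℝ => f (sm (Y + t • B))) 0 := by
    apply Filter.Eventually.of_forall
    intro t
    simp only [Pi.sub_apply]
    have h7 : f (sm (Y + t • B)) ≤ f (‖T (cur n Y) w + t • T (cur n B) w‖) := by
      apply hmono
      have h8 := smin_le (cur n (Y + t • B)) hw
      rwa [map_add, map_smul, T_add, T_smul] at h8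
    have h8 : f (‖T (cur n Y) w + (0 : ℝ) • T (cur n B) w‖) - f (sm (Y + (0 : ℝ) • B)) = 0 := by
      simp [hmin]
    rw [h8]
    linarith
  have h7 := h6.hasDerivAt_eq_zero h5
  linarith

end Pool.Agent.H988R2
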