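import Mathlib
import Pool.Agent.H988R2.MinSing

/-! The orthogonal group and the flip of the smallest singular value. -/

set_option autoImplicit false
open MeasureTheory ProbabilityTheory Set Metric
open scoped RealInnerProductSpace

namespace Pool.Agent.H988R2

variable {n : ℕ}

/-- The orthogonal group. -/
abbrev Og (n : ℕ) := ↥(Matrix.orthogonalGroup (Fin n) ℝ)

noncomputable instance : MeasurableSpace (Og n) := borel _

instance : BorelSpace (Og n) := ⟨rfl⟩

instance : CompactSpace (Og n) := by
  have key : IsCompact (Matrix.orthogonalGroup (Fin n) ℝ : Set (Matrix (Fin n) (Fin n) ℝ)) := ?_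
  · exact isCompact_iff_compactSpace.mp key
  have h1 : IsClosed (Matrix.orthogonalGroup (Fin n) ℝ : Set (Matrix (Fin n) (Fin n) ℝ)) :=
    isClosed_unitary
  have h2 : IsCompact (Set.pi Set.univ fun _ : Fin n => Set.pi Set.univ fun _ : Fin n =>
      Set.Icc (-1 : ℝ) 1) :=
    isCompact_univ_pi fun _ => isCompact_univ_pi fun _ => isCompact_Icc
  refine h2.of_isClosed_subset h1 ?_
  intro O hO i _ j _
  have := entry_norm_bound_of_unitary (𝕜 := ℝ) hO i j
  rw [Real.norm_eq_abs, abs_le] at this
  exact this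

/-- Haar measure on the orthogonal group. -/
noncomputable def haarO (n : ℕ) : Measure (Og n) := Measure.haar

instance : (haarO n).IsHaarMeasure := by unfold haarO; infer_instance

instance : IsFiniteMeasure (haarO n) := by infer_instance

lemma measurable_entry (i j : Fin n) : Measurable fun O : Og n => (O : Matrix _ _ ℝ) i j := by
  apply Continuous.measurable
  exact (continuous_apply_apply i j).comp continuous_subtype_val

lemma continuous_entry (i j : Fin n) : Continuous fun O : Og n => (O : Matrix _ _ ℝ) i j :=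
  (continuous_apply_apply i j).comp continuous_subtype_val

/-- The Householder reflection. -/
noncomputable def refl (v : U n) : Matrix (Fin n) (Fin n) ℝ :=
  1 - (2 : ℝ) • Matrix.vecMulVec (WithLp.ofLp v) (WithLp.ofLp v)

lemma refl_transpose (v : U n) : (refl v).transpose = refl v := by
  unfold refl
  rw [Matrix.transpose_sub, Matrix.transpose_one, Matrix.transpose_smul,
    Matrix.transpose_vecMulVec]

lemma refl_mul_self {v : U n} (hv : ‖v‖ = 1) : refl v * refl v = 1 := by
  have h : WithLp.ofLp v ⬝ᵥ WithLp.ofLp v = 1 := by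
    have := EuclideanSpace.inner_eq_star_dotProduct v v
    rw [real_inner_self_eq_norm_sq, hv] at this
    simpa using this.symm
  unfold refl
  rw [sub_mul, mul_sub, mul_sub]
  simp only [mul_one, one_mul, Matrix.smul_mul, Matrix.mul_smul]
  rw [Matrix.vecMulVec_mul_vecMulVec, h]
  ext i j
  simp
  ring

lemma refl_mem {v : U n} (hv : ‖v‖ = 1) : refl v ∈ Matrix.orthogonalGroup (Fin n) ℝ := by
  rw [Matrix.mem_orthogonalGroup_iff]
  have : star (refl v) = (refl v).transpose := by
    ext i j; simp [Matrix.star_apply]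
  rw [refl_transpose, refl_mul_self hv]

lemma refl_mulVec {v : U n} (hv : ‖v‖ = 1) :
    Matrix.toEuclideanCLM (n := Fin n) (𝕜 := ℝ) (refl v) v = -v := by
  have h : WithLp.ofLp v ⬝ᵥ WithLp.ofLp v = 1 := by
    have := EuclideanSpace.inner_eq_star_dotProduct v v
    rw [real_inner_self_eq_norm_sq, hv] at this
    simpa using this.symm
  apply (WithLp.ofLp_injective 2)
  rw [Matrix.ofLp_toEuclideanCLM]
  unfold refl
  rw [Matrix.sub_mulVec, Matrix.one_mulVec, Matrix.smul_mulVec, Matrix.vecMulVec_mulVec, h]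
  ext i
  simp
  ring

/-- `⟨X v, B Oᵀ v⟩`. -/
noncomputable def yf (X B : W n) (v : U n) (O : Matrix (Fin n) (Fin n) ℝ) : ℝ :=
  ⟪T (cur n X) v, T (cur n B) (Matrix.toEuclideanCLM (n := Fin n) (𝕜 := ℝ) O.transpose v)⟫

lemma yf_refl (X B : W n) {v : U n} (hv : ‖v‖ = 1) (O : Matrix (Fin n) (Fin n) ℝ) :
    yf X B v (refl v * O) = -yf X B v O := by
  unfold yf
  rw [Matrix.transpose_mul, refl_transpose, map_mul]
  change ⟪T (cur n X) v, T (cur n B) (Matrix.toEuclideanCLM (n := Fin n) (𝕜 := ℝ) O.transpose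
    (Matrix.toEuclideanCLM (n := Fin n) (𝕜 := ℝ) (refl v) v))⟫ = _
  rw [refl_mulVec hv, map_neg, map_neg, inner_neg_right]

lemma inner_RW_refl (X B : W n) (v : U n) (O : Matrix (Fin n) (Fin n) ℝ) :
    ⟪RW (refl v * O) X, B⟫ = ⟪RW O X, B⟫ - 2 * yf X B v O := by
  have h1 : (refl v * O) = O - (2 : ℝ) • Matrix.vecMulVec (WithLp.ofLp v) (Matrix.vecMul (WithLp.ofLp v) O) := by
    unfold refl
    rw [sub_mul, one_mul, Matrix.smul_mul, Matrix.vecMulVec_mul]
  have h2 : yf X B v O = ∑ i, (∑ k, X (i, k) * v k) * (∑ j, B (i, j) * ∑ l, v l * O l j) := by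
    unfold yf
    rw [EuclideanSpace.inner_eq_star_dotProduct]
    simp only [star_trivial]
    rw [dotProduct_comm]
    unfold T
    rw [Matrix.ofLp_toEuclideanCLM, Matrix.ofLp_toEuclideanCLM, Matrix.ofLp_toEuclideanCLM]
    unfold dotProduct
    refine Finset.sum_congr rfl fun i _ => ?_
    congr 1
    simp only [Matrix.mulVec, dotProduct, Matrix.of_apply, cur_apply, Matrix.transpose_apply]
    refine Finset.sum_congr rfl fun j _ => ?_
    congr 1
    refine Finset.sum_congr rfl fun l _ => by ring
  rw [h1, inner_RW, inner_RW, h2, Finset.mul_sum, ← Finset.sum_sub_distrib]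
  refine Finset.sum_congr rfl fun i _ => ?_
  have h3 : ∀ j, ∑ k, X (i, k) * (O - (2 : ℝ) • Matrix.vecMulVec (WithLp.ofLp v)
      (Matrix.vecMul (WithLp.ofLp v) O)) k j * B (i, j) =
      ∑ k, X (i, k) * O k j * B (i, j) -
        2 * ((∑ k, X (i, k) * v k) * (B (i, j) * ∑ l, v l * O l j)) := by
    intro j
    have : ∀ k, (O - (2 : ℝ) • Matrix.vecMulVec (WithLp.ofLp v)
      (Matrix.vecMul (WithLp.ofLp v) O)) k j = O k j - 2 * (v k * ∑ l, v l * O l j) := by
      intro k
      simp [Matrix.vecMulVec_apply, Matrix.vecMul, dotProduct]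
    simp_rw [this, mul_sub, sub_mul, Finset.sum_sub_distrib]
    congr 1
    rw [Finset.sum_mul, Finset.mul_sum]
    refine Finset.sum_congr rfl fun k _ => by ring
  rw [Finset.sum_congr rfl fun j _ => h3 j, Finset.sum_sub_distrib]
  congr 1
  rw [← Finset.mul_sum, ← Finset.mul_sum]

lemma continuous_yf (X B : W n) (v : U n) : Continuous fun O : Og n => yf X B v O := by
  unfold yf
  have h : Continuous fun O : Og n =>
      (Matrix.toEuclideanCLM (n := Fin n) (𝕜 := ℝ) (O : Matrix _ _ ℝ).transpose v) := by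
    have : (fun O : Og n => (Matrix.toEuclideanCLM (n := Fin n) (𝕜 := ℝ)
        (O : Matrix _ _ ℝ).transpose v)) = fun O : Og n =>
        WithLp.toLp 2 ((O : Matrix _ _ ℝ).transpose.mulVec (WithLp.ofLp v)) := by
      ext O; rfl
    rw [this]
    apply (PiLp.continuous_toLp 2 _).comp
    apply Continuous.matrix_mulVec
    · exact continuous_subtype_val.matrix_transpose
    · exact continuous_const
  fun_prop

lemma continuous_inner_RW (X B : W n) : Continuous fun O : Og n => ⟪RW (O : Matrix _ _ ℝ) X, B⟫ := by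
  simp_rw [inner_RW]
  refine continuous_finsetSum _ fun i _ => continuous_finsetSum _ fun j _ =>
    continuous_finsetSum _ fun k _ => ?_
  exact (continuous_const.mul (continuous_entry k j)).mul continuous_const

/-- The key inequality on each orbit. -/
lemma orbit_nonneg (X B : W n) {v : U n} (hv : ‖v‖ = 1) {r : ℝ} (hr : 0 ≤ r) :
    0 ≤ ∫ O : Og n, Real.exp (r * ⟪RW (O : Matrix _ _ ℝ) X, B⟫) * yf X B v O ∂(haarO n) := by
  set φ : Og n → ℝ := fun O => Real.exp (r * ⟪RW (O : Matrix _ _ ℝ) X, B⟫) * yf X B v O with hφ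
  have hc : Continuous φ :=
    (Real.continuous_exp.comp (continuous_const.mul (continuous_inner_RW X B))).mul
      (continuous_yf X B v)
  let R : Og n := ⟨refl v, refl_mem hv⟩
  have h1 : ∫ O, φ (R * O) ∂(haarO n) = ∫ O, φ O ∂(haarO n) := integral_mul_left_eq_self φ R
  have hint : ∀ ψ : Og n → ℝ, Continuous ψ → Integrable ψ (haarO n) := fun ψ hψ =>
    hψ.integrable_of_hasCompactSupport (HasCompactSupport.of_compactSpace ψ)
  have hc2 : Continuous fun O => φ (R * O) := hc.comp (continuous_const_mul R)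
  have h2 : 0 ≤ ∫ O, (φ O + φ (R * O)) ∂(haarO n) := by
    apply integral_nonneg
    intro O
    have e1 : ((R * O : Og n) : Matrix _ _ ℝ) = refl v * (O : Matrix _ _ ℝ) := rfl
    simp only [hφ, e1, yf_refl X B hv, inner_RW_refl, Pi.zero_apply]
    set w := ⟪RW (O : Matrix _ _ ℝ) X, B⟫
    set y := yf X B v O
    have e2 : Real.exp (r * w) * y + Real.exp (r * (w - 2 * y)) * -y =
        (Real.exp (r * w) - Real.exp (r * (w - 2 * y))) * y := by ring
    rw [e2]
    rcases le_total 0 y with hy | hy
    · apply mul_nonneg _ hy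
      rw [sub_nonneg]
      apply Real.exp_le_exp.mpr
      nlinarith
    · apply mul_nonneg_of_nonpos_of_nonpos _ hy
      rw [sub_nonpos]
      apply Real.exp_le_exp.mpr
      nlinarith
  rw [integral_add (hint _ hc) (hint _ hc2), h1] at h2
  linarith

end Pool.Agent.H988R2
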