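import Mathlib
import Pool.Agent.H988R2.MinSing2

/-! Monotonicity of `E f(s_min(r B + Z))` in `r`. -/

set_option autoImplicit false
open MeasureTheory ProbabilityTheory Set Metric
open scoped RealInnerProductSpace NNReal

namespace Pool.Agent.H988R2

variable {n : ℕ}

/-- The identity matrix as a vector of `W n`. -/
noncomputable def idW (n : ℕ) : W n := WithLp.toLp 2 fun p => if p.1 = p.2 then 1 else 0

lemma continuous_det : Continuous fun X : W n => (Matrix.of (cur n X)).det := by
  apply Continuous.matrix_det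
  exact (cur n).continuous

/-- Almost every matrix is invertible. -/
lemma ae_det_ne_zero : ∀ᵐ X ∂(volume : Measure (W n)), (Matrix.of (cur n X)).det ≠ 0 := by
  let L : ℝ →ₗ[ℝ] W n := LinearMap.toSpanSingleton ℝ (W n) (idW n)
  have hs : MeasurableSet {X : W n | (Matrix.of (cur n X)).det ≠ 0} :=
    (isOpen_ne_fun continuous_det continuous_const).measurableSet
  apply ae_mem_of_ae_add_linearMap_mem L volume volume hs
  intro p
  rw [ae_iff]
  have h1 : {t : ℝ | ¬ (p + L t) ∈ {X : W n | (Matrix.of (cur n X)).det ≠ 0}} ⊆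
      ((-(Matrix.of (cur n p))).charpoly.roots.toFinset : Set ℝ) := by
    intro t ht
    simp only [Set.mem_ofPred_eq, not_not] at ht
    rw [Finset.mem_coe, Multiset.mem_toFinset, Polynomial.mem_roots
      (Matrix.charpoly_monic _).ne_zero, Polynomial.IsRoot.def, Matrix.eval_charpoly]
    have : Matrix.of (cur n (p + L t)) = Matrix.scalar (Fin n) t - -(Matrix.of (cur n p)) := by
      ext i j
      simp only [Matrix.of_apply, Matrix.sub_apply, Matrix.neg_apply, Matrix.scalar_apply,
        Matrix.diagonal_apply, cur_apply, L, LinearMap.toSpanSingleton_apply, idW,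
        PiLp.add_apply, PiLp.smul_apply, smul_eq_mul]
      split_ifs <;> ring
    rw [← this]
    exact ht
  exact measure_mono_null h1 ((Finset.finite_toSet _).measure_zero _)

lemma sm_pos_of_det (hn : 0 < n) {X : W n} (h : (Matrix.of (cur n X)).det ≠ 0) : 0 < sm X := by
  rcases (smin_nonneg (cur n X)).lt_or_eq with h1 | h1
  · exact h1
  exfalso
  obtain ⟨v, hv, hmin⟩ := exists_min hn (cur n X)
  rw [← h1, norm_eq_zero] at hmin
  apply h
  apply Matrix.exists_mulVec_eq_zero_iff.mp
  refine ⟨WithLp.ofLp v, ?_, ?_⟩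
  · intro h0
    have : v = 0 := (WithLp.ofLp_injective 2) h0
    rw [this, norm_zero] at hv
    exact zero_ne_one hv
  · have := congrArg (WithLp.ofLp) hmin
    unfold T at this
    rwa [Matrix.ofLp_toEuclideanCLM] at this

lemma T_rmul_transpose (O : Matrix (Fin n) (Fin n) ℝ)
    (hO : O ∈ Matrix.orthogonalGroup (Fin n) ℝ) (X : W n) (v : U n) :
    T (cur n (RW O X)) (Matrix.toEuclideanCLM (n := Fin n) (𝕜 := ℝ) O.transpose v) =
      T (cur n X) v := by
  rw [cur_RW, T_rmul]
  congr 1
  have h : O * O.transpose = 1 := (Matrix.mem_orthogonalGroup_iff (Fin n) ℝ).mp hO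
  rw [← mul_apply_eq_comp, ← map_mul, h, map_one]
  rfl

section Main

variable {f : ℝ → ℝ} {C : ℝ≥0}

lemma integrable_exp_norm (c : ℝ) : Integrable (fun X : W n => Real.exp (c * ‖X‖)) (γ n) := by
  obtain ⟨a, ha, h⟩ := IsGaussian.exists_integrable_exp_sq (γ n)
  have h2 := h.const_mul (Real.exp (c ^ 2 / (4 * a)))
  refine h2.mono' (by fun_prop) (Filter.Eventually.of_forall fun X => ?_)
  rw [Real.norm_eq_abs, abs_of_pos (Real.exp_pos _), ← Real.exp_add]
  apply Real.exp_le_exp.mpr
  have : c ^ 2 / (4 * a) + a * ‖X‖ ^ 2 - c * ‖X‖ = (c / (2 * Real.sqrt a) - Real.sqrt a * ‖X‖) ^ 2 := by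
    have h3 : Real.sqrt a ≠ 0 := (Real.sqrt_pos.mpr ha).ne'
    have h4 : Real.sqrt a ^ 2 = a := Real.sq_sqrt ha.le
    field_simp
    rw [sub_sq, mul_pow, mul_pow]
    have h5 : Real.sqrt a ^ 4 = a ^ 2 := by
      rw [show Real.sqrt a ^ 4 = (Real.sqrt a ^ 2) ^ 2 by ring, h4]
    rw [h4]
    ring_nf
  nlinarith [sq_nonneg (c / (2 * Real.sqrt a) - Real.sqrt a * ‖X‖)]

lemma measurable_RW_uncurry : Measurable fun p : Og n × W n => RW (p.1 : Matrix _ _ ℝ) p.2 := by
  have : (fun p : Og n × W n => RW (p.1 : Matrix _ _ ℝ) p.2) = fun p : Og n × W n =>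
      WithLp.toLp 2 (fun q : Fin n × Fin n => ∑ k, p.2 (q.1, k) * (p.1 : Matrix _ _ ℝ) k q.2) := by
    ext p q; rfl
  rw [this]
  apply (WithLp.measurable_toLp 2 _).comp
  apply measurable_pi_lambda
  intro q
  refine Finset.measurable_sum _ fun k _ => ?_
  apply Measurable.mul
  · have : Measurable fun X : W n => X (q.1, k) := by fun_prop
    exact this.comp measurable_snd
  · exact (measurable_entry k q.2).comp measurable_fst

lemma lineDeriv_RW (hn : 0 < n) (hf : Differentiable ℝ f) (hmono : Monotone f) (X B : W n)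
    {v : U n} (hv : ‖v‖ = 1) (hmin : ‖T (cur n X) v‖ = sm X) (hs : 0 < sm X)
    (hX : DifferentiableAt ℝ (fun X => f (sm X)) X) (O : Matrix (Fin n) (Fin n) ℝ)
    (hO : O ∈ Matrix.orthogonalGroup (Fin n) ℝ) :
    lineDeriv ℝ (fun X => f (sm X)) (RW O X) B = deriv f (sm X) / sm X * yf X B v O := by
  have hw : ‖Matrix.toEuclideanCLM (n := Fin n) (𝕜 := ℝ) O.transpose v‖ = 1 := by
    rw [norm_orth _ _ v, hv]
    rw [Matrix.mem_orthogonalGroup_iff]
    simpa using (Matrix.mem_orthogonalGroup_iff' (Fin n) ℝ).mp hO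
  have h1 : T (cur n (RW O X))
      (Matrix.toEuclideanCLM (n := Fin n) (𝕜 := ℝ) O.transpose v) =
      T (cur n X) v := T_rmul_transpose _ hO X v
  have h2 : sm (RW O X) = sm X := sm_RW hn _ hO X
  have hdiff : DifferentiableAt ℝ (fun X => f (sm X)) (RW O X) := by
    have e1 : (fun X => f (sm X)) = (fun X => f (sm X)) ∘ (RWi _ hO).symm := by
      ext Y
      simp only [Function.comp_apply]
      congr 1
      conv_lhs => rw [← (RWi _ hO).apply_symm_apply Y]
      rw [RWi_apply, sm_RW hn _ hO]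
    rw [e1]
    apply DifferentiableAt.comp
    · rw [← RWi_apply _ hO, LinearIsometryEquiv.symm_apply_apply]
      exact hX
    · exact (RWi _ hO).symm.differentiableAt
  rw [lineDeriv_formula hf hmono (RW O X) B hw (by rw [h1, h2]; exact hmin)
    (by rw [h2]; exact hs) hdiff.lineDifferentiableAt, h2, h1]
  unfold yf
  ring

/-- The derivative is nonnegative. -/
theorem deriv_nonneg' (hn : 0 < n) (hf : Differentiable ℝ f) (hmono : Monotone f)
    (hlip : LipschitzWith C f) (B : W n) {r : ℝ} (hr : 0 ≤ r) :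
    0 ≤ ∫ X, lineDeriv ℝ (fun X => f (sm X)) (X + r • B) B ∂(γ n) := by
  obtain ⟨K, hK⟩ := sm_lipschitz hn
  set g : W n → ℝ := fun X => f (sm X) with hg
  have hglip : LipschitzWith (C * K) g := hlip.comp hK
  rw [integral_stdGaussian_add _ (fun X => lineDeriv ℝ g X B) (r • B)]
  apply mul_nonneg (Real.exp_pos _).le
  set Ψ : W n → ℝ := fun X => Real.exp ⟪X, r • B⟫ * lineDeriv ℝ g X B with hΨ
  have hmeasL : Measurable fun X => lineDeriv ℝ g X B := measurable_lineDeriv hglip.continuous
  have hΨm : Measurable Ψ := by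
    apply Measurable.mul _ hmeasL
    fun_prop
  -- bound
  have hbound : ∀ X, ‖Ψ X‖ ≤ ((C * K : ℝ≥0) * ‖B‖) * Real.exp (‖r • B‖ * ‖X‖) := by
    intro X
    rw [hΨ, norm_mul, Real.norm_eq_abs, abs_of_pos (Real.exp_pos _), mul_comm]
    apply mul_le_mul
    · exact norm_lineDeriv_le_of_lipschitz ℝ hglip
    · apply Real.exp_le_exp.mpr
      rw [mul_comm]
      exact real_inner_le_norm _ _
    · exact (Real.exp_pos _).le
    · positivity
  have hint : Integrable (Function.uncurry fun (O : Og n) (X : W n) => Ψ (RW (O : Matrix _ _ ℝ) X))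
      ((haarO n).prod (γ n)) := by
    have h1 : Integrable (fun p : Og n × W n =>
        ((C * K : ℝ≥0) * ‖B‖) * Real.exp (‖r • B‖ * ‖p.2‖)) ((haarO n).prod (γ n)) :=
      ((integrable_exp_norm ‖r • B‖).const_mul _).comp_snd (haarO n)
    refine h1.mono' (hΨm.comp measurable_RW_uncurry).aestronglyMeasurable
      (Filter.Eventually.of_forall fun p => ?_)
    refine (hbound _).trans ?_
    rw [norm_RW _ p.1.2]
  -- averaging over the orthogonal group
  have havg : (haarO n).real Set.univ * ∫ X, Ψ X ∂(γ n) =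
      ∫ X, (∫ O : Og n, Ψ (RW (O : Matrix _ _ ℝ) X) ∂(haarO n)) ∂(γ n) := by
    rw [← integral_integral_swap hint]
    have : ∀ O : Og n, ∫ X, Ψ (RW (O : Matrix _ _ ℝ) X) ∂(γ n) = ∫ X, Ψ X ∂(γ n) :=
      fun O => integral_RW _ O.2 Ψ
    simp_rw [this]
    rw [integral_const, smul_eq_mul]
  have hpos : 0 < (haarO n).real Set.univ := by
    rw [measureReal_def]
    apply ENNReal.toReal_pos
    · exact (isOpen_univ.measure_pos (haarO n) Set.univ_nonempty).ne'
    · exact measure_ne_top _ _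
  have hmain : 0 ≤ ∫ X, (∫ O : Og n, Ψ (RW (O : Matrix _ _ ℝ) X) ∂(haarO n)) ∂(γ n) := by
    apply integral_nonneg_of_ae
    have hd : ∀ᵐ X ∂(γ n), DifferentiableAt ℝ g X :=
      (stdGaussian_ac _).ae_le hglip.ae_differentiableAt
    have hdet : ∀ᵐ X ∂(γ n), (Matrix.of (cur n X)).det ≠ 0 :=
      (stdGaussian_ac _).ae_le ae_det_ne_zero
    filter_upwards [hd, hdet] with X hX hXdet
    have hs := sm_pos_of_det hn hXdet
    obtain ⟨v, hv, hmin⟩ := exists_min hn (cur n X)
    have hform : ∀ O : Og n, Ψ (RW (O : Matrix _ _ ℝ) X) =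
        (deriv f (sm X) / sm X) *
          (Real.exp (r * ⟪RW (O : Matrix _ _ ℝ) X, B⟫) * yf X B v O) := by
      intro O
      simp only [hΨ, hg]
      rw [lineDeriv_RW hn hf hmono X B hv hmin hs hX _ O.2, inner_smul_right]
      ring
    simp_rw [hform]
    rw [integral_const_mul]
    apply mul_nonneg
    · exact div_nonneg hmono.deriv_nonneg hs.le
    · exact orbit_nonneg X B hv hr
  rw [← havg] at hmain
  exact nonneg_of_mul_nonneg_right hmain hpos

end Main

end Pool.Agent.H988R2
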