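import Mathlib
import Pool.Agent.H988R2.MinSing3

/-! The centred Gaussian matrix has the smallest least singular value. -/

set_option autoImplicit false
open MeasureTheory ProbabilityTheory Set Metric Filter Topology
open scoped RealInnerProductSpace NNReal

namespace Pool.Agent.H988R2

variable {n : ℕ} {f : ℝ → ℝ} {C : ℝ≥0}

theorem hasDerivAt_F (hn : 0 < n) (hlip : LipschitzWith C f) {M : ℝ} (hM : ∀ x, |f x| ≤ M)
    (B : W n) (r : ℝ) :
    HasDerivAt (fun r : ℝ => ∫ X, f (sm (X + r • B)) ∂(γ n))
      (∫ X, lineDeriv ℝ (fun X => f (sm X)) (X + r • B) B ∂(γ n)) r := by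
  obtain ⟨K, hK⟩ := sm_lipschitz hn
  have hglip : LipschitzWith (C * K) (fun X : W n => f (sm X)) := hlip.comp hK
  have hgc : Continuous (fun X : W n => f (sm X)) := hglip.continuous
  have hmeas : ∀ r : ℝ, Measurable fun X : W n => f (sm (X + r • B)) := fun r =>
    (hgc.comp (continuous_id.add continuous_const)).measurable
  refine (hasDerivAt_integral_of_dominated_loc_of_lip (s := Set.univ)
    (bound := fun _ => ((C * K : ℝ≥0) : ℝ) * ‖B‖) univ_mem
    (Eventually.of_forall fun r => (hmeas r).aestronglyMeasurable) ?_ ?_ ?_ (integrable_const _)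
    ?_).2
  · refine (integrable_const M).mono' (hmeas r).aestronglyMeasurable (Eventually.of_forall
      fun X => ?_)
    rw [Real.norm_eq_abs]
    exact hM _
  · apply Measurable.aestronglyMeasurable
    exact (measurable_lineDeriv hgc).comp (measurable_id.add_const _)
  · refine Eventually.of_forall fun X => ?_
    apply LipschitzWith.lipschitzOnWith
    apply LipschitzWith.of_dist_le_mul
    intro a b
    have h1 := hglip.dist_le_mul (X + a • B) (X + b • B)
    refine h1.trans ?_
    rw [dist_add_left, dist_eq_norm, ← sub_smul, norm_smul, Real.dist_eq, Real.norm_eq_abs]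
    rw [Real.coe_nnabs, abs_of_nonneg (mul_nonneg (NNReal.coe_nonneg _) (norm_nonneg _))]
    apply le_of_eq
    ring
  · have h1 : ∀ᵐ X ∂(volume : Measure (W n)), LineDifferentiableAt ℝ (fun X => f (sm X)) X B :=
      hglip.ae_lineDifferentiableAt B
    filter_upwards [ae_add_of_ae_volume _ h1 (r • B)] with X hX
    have h2 := hX.hasLineDerivAt
    unfold HasLineDerivAt at h2
    have h3 : HasDerivAt (fun r' : ℝ => r' - r) 1 r := (hasDerivAt_id r).sub_const r
    have h4 : HasDerivAt (fun t : ℝ => f (sm (X + r • B + t • B)))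
        (lineDeriv ℝ (fun X => f (sm X)) (X + r • B) B) (r - r) := by
      rw [sub_self]; exact h2
    have h5 := HasDerivAt.comp (h₂ := fun t : ℝ => f (sm (X + r • B + t • B)))
      (h := fun r' : ℝ => r' - r) r h4 h3
    rw [mul_one] at h5
    have e : (fun t : ℝ => f (sm (X + t • B))) =
        (fun t : ℝ => f (sm (X + r • B + t • B))) ∘ fun r' : ℝ => r' - r := by
      funext t
      simp only [Function.comp_apply]
      rw [add_assoc, ← add_smul, add_sub_cancel]
    rw [e]
    exact h5

theorem mono_integral (hn : 0 < n) (hf : Differentiable ℝ f) (hmono : Monotone f)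
    (hlip : LipschitzWith C f) {M : ℝ} (hM : ∀ x, |f x| ≤ M) (B : W n) :
    ∫ X, f (sm X) ∂(γ n) ≤ ∫ X, f (sm (X + B)) ∂(γ n) := by
  have h1 := hasDerivAt_F hn hlip hM B
  have h2 : MonotoneOn (fun r : ℝ => ∫ X, f (sm (X + r • B)) ∂(γ n)) (Set.Ici 0) := by
    apply monotoneOn_of_deriv_nonneg (convex_Ici 0)
    · exact fun r _ => (h1 r).continuousAt.continuousWithinAt
    · exact fun r _ => (h1 r).differentiableAt.differentiableWithinAt
    · intro r hr
      rw [interior_Ici, Set.mem_Ioi] at hr
      rw [(h1 r).deriv]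
      exact deriv_nonneg' hn hf hmono hlip B hr.le
  have h3 := h2 (Set.mem_Ici.mpr le_rfl) (Set.mem_Ici.mpr zero_le_one) zero_le_one
  simpa using h3

/-- approximating functions -/
noncomputable def fk (t : ℝ) (k : ℕ) (s : ℝ) : ℝ := Real.arctan (k * (s - t) - Real.sqrt k)

lemma arctan_lip : LipschitzWith 1 Real.arctan := by
  apply lipschitzWith_of_nnnorm_deriv_le Real.differentiable_arctan
  intro x
  rw [← NNReal.coe_le_coe, coe_nnnorm, Real.deriv_arctan, Real.norm_eq_abs, NNReal.coe_one,
    abs_of_nonneg (by positivity)]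
  rw [div_le_one (by positivity)]
  nlinarith [sq_nonneg x]

lemma fk_diff (t : ℝ) (k : ℕ) : Differentiable ℝ (fk t k) := by
  unfold fk
  apply Real.differentiable_arctan.comp
  fun_prop

lemma fk_mono (t : ℝ) (k : ℕ) : Monotone (fk t k) := by
  intro a b hab
  unfold fk
  apply Real.arctan_mono
  have : (k : ℝ) * (a - t) ≤ k * (b - t) := by gcongr
  linarith

lemma fk_lip (t : ℝ) (k : ℕ) : LipschitzWith (k : ℝ≥0) (fk t k) := by
  have h : LipschitzWith (k : ℝ≥0) fun s : ℝ => (k : ℝ) * (s - t) - Real.sqrt k := by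
    apply LipschitzWith.of_dist_le_mul
    intro a b
    rw [Real.dist_eq, Real.dist_eq]
    have : (k : ℝ) * (a - t) - Real.sqrt k - (k * (b - t) - Real.sqrt k) = k * (a - b) := by ring
    rw [this, abs_mul, Nat.abs_cast]
    simp
  have := arctan_lip.comp h
  rwa [one_mul] at this

lemma fk_bound (t : ℝ) (k : ℕ) (x : ℝ) : |fk t k x| ≤ Real.pi := by
  unfold fk
  rw [abs_le]
  have h1 := Real.neg_pi_div_two_lt_arctan (k * (x - t) - Real.sqrt k)
  have h2 := Real.arctan_lt_pi_div_two (k * (x - t) - Real.sqrt k)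
  have h3 := Real.pi_pos
  constructor <;> linarith

/-- the limit -/
noncomputable def flim (t : ℝ) (s : ℝ) : ℝ :=
  Real.pi / 2 - Real.pi * (Set.Iic t).indicator (fun _ => (1 : ℝ)) s

lemma fk_tendsto (t s : ℝ) : Tendsto (fun k : ℕ => fk t k s) atTop (𝓝 (flim t s)) := by
  unfold flim fk
  have hsq : Tendsto (fun k : ℕ => Real.sqrt (k : ℝ)) atTop atTop :=
    Real.tendsto_sqrt_atTop.comp tendsto_natCast_atTop_atTop
  by_cases h : s ≤ t
  · rw [Set.indicator_of_mem (Set.mem_Iic.mpr h)]
    have h1 : Tendsto (fun k : ℕ => (k : ℝ) * (s - t) - Real.sqrt k) atTop atBot := by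
      refine tendsto_atBot_mono (fun k => ?_) (tendsto_neg_atTop_atBot.comp hsq)
      have : (k : ℝ) * (s - t) ≤ 0 :=
        mul_nonpos_of_nonneg_of_nonpos (Nat.cast_nonneg k) (by linarith)
      simp only [Function.comp_apply]
      linarith
    have h2 := (tendsto_nhds_of_tendsto_nhdsWithin Real.tendsto_arctan_atBot).comp h1
    have e : Real.pi / 2 - Real.pi * 1 = -(Real.pi / 2) := by ring
    rw [e]
    exact h2
  · rw [Set.indicator_of_notMem (by simpa using h)]
    push Not at h
    have h1 : Tendsto (fun k : ℕ => (k : ℝ) * (s - t) - Real.sqrt k) atTop atTop := by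
      have e : (fun k : ℕ => (k : ℝ) * (s - t) - Real.sqrt k) =
          fun k : ℕ => Real.sqrt k * (Real.sqrt k * (s - t) - 1) := by
        ext k
        have : Real.sqrt (k : ℝ) * Real.sqrt k = k := Real.mul_self_sqrt (Nat.cast_nonneg k)
        calc (k : ℝ) * (s - t) - Real.sqrt k
            = (Real.sqrt (k : ℝ) * Real.sqrt k) * (s - t) - Real.sqrt k := by rw [this]
          _ = _ := by ring
      rw [e]
      apply hsq.atTop_mul_atTop₀
      apply tendsto_atTop_add_const_right
      exact hsq.atTop_mul_const (by linarith)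
    have h2 := (tendsto_nhds_of_tendsto_nhdsWithin Real.tendsto_arctan_atTop).comp h1
    have e : Real.pi / 2 - Real.pi * 0 = Real.pi / 2 := by ring
    rw [e]
    exact h2

/-- **Main theorem.** -/
theorem measure_sm_le (hn : 0 < n) (B : W n) (t : ℝ) :
    (γ n) {X | sm (X + B) ≤ t} ≤ (γ n) {X | sm X ≤ t} := by
  obtain ⟨K, hK⟩ := sm_lipschitz hn
  have hlim : ∀ A : W n, Tendsto (fun k : ℕ => ∫ X, fk t k (sm (X + A)) ∂(γ n)) atTop
      (𝓝 (∫ X, flim t (sm (X + A)) ∂(γ n))) := by
    intro A
    apply tendsto_integral_of_dominated_convergence (fun _ => Real.pi)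
    · intro k
      apply Continuous.aestronglyMeasurable
      exact (fk_diff t k).continuous.comp (hK.continuous.comp (continuous_id.add continuous_const))
    · exact integrable_const _
    · intro k
      exact Eventually.of_forall fun X => fk_bound t k _
    · exact Eventually.of_forall fun X => fk_tendsto t _
  have hle : ∫ X, flim t (sm (X + 0)) ∂(γ n) ≤ ∫ X, flim t (sm (X + B)) ∂(γ n) := by
    apply le_of_tendsto_of_tendsto' (hlim 0) (hlim B)
    intro k
    simp only [add_zero]
    exact mono_integral hn (fk_diff t k) (fk_mono t k) (fk_lip t k) (fk_bound t k) B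
  have hval : ∀ A : W n, ∫ X, flim t (sm (X + A)) ∂(γ n) =
      Real.pi / 2 - Real.pi * (γ n).real {X | sm (X + A) ≤ t} := by
    intro A
    have hms : MeasurableSet {X : W n | sm (X + A) ≤ t} :=
      (isClosed_le (hK.continuous.comp (continuous_id.add continuous_const))
        continuous_const).measurableSet
    unfold flim
    have e : ∀ X : W n, (Set.Iic t).indicator (fun _ => (1 : ℝ)) (sm (X + A)) =
        ({X : W n | sm (X + A) ≤ t}).indicator (fun _ => (1 : ℝ)) X := by
      intro X
      by_cases h : sm (X + A) ≤ t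
      · rw [Set.indicator_of_mem (Set.mem_Iic.mpr h), Set.indicator_of_mem (by exact h)]
      · rw [Set.indicator_of_notMem (by simpa using h), Set.indicator_of_notMem (by exact h)]
    simp_rw [e]
    rw [integral_sub (integrable_const _), integral_const_mul, integral_indicator_const _ hms]
    · simp
    · exact ((integrable_const (1 : ℝ)).indicator hms).const_mul _
  rw [hval, hval] at hle
  simp only [add_zero] at hle
  have h2 : (γ n).real {X | sm (X + B) ≤ t} ≤ (γ n).real {X | sm X ≤ t} := by
    have := Real.pi_pos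
    nlinarith
  exact (ENNReal.toReal_le_toReal (measure_ne_top _ _) (measure_ne_top _ _)).mp h2

/-- The Gaussian measure on matrices. -/
theorem pi_pi_eq_map :
    Measure.pi (fun _ : Fin n => Measure.pi (fun _ : Fin n => gaussianReal 0 1)) =
      (γ n).map (cur n) := by
  have h1 : (Measure.pi (fun _ : Fin n => Measure.pi (fun _ : Fin n => gaussianReal 0 1))).map
      (fun G : Fin n → Fin n → ℝ => fun p : Fin n × Fin n => G p.1 p.2) =
      Measure.pi (fun _ : Fin n × Fin n => gaussianReal 0 1) := by
    symm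
    apply Measure.pi_eq
    intro s hs
    rw [Measure.map_apply (by fun_prop) (MeasurableSet.univ_pi hs)]
    have : (fun G : Fin n → Fin n → ℝ => fun p : Fin n × Fin n => G p.1 p.2) ⁻¹' (Set.univ.pi s) =
        Set.univ.pi fun i => Set.univ.pi fun j => s (i, j) := by
      ext G
      simp [Set.mem_pi]
    rw [this, Measure.pi_pi]
    simp_rw [Measure.pi_pi]
    rw [Fintype.prod_prod_type]
  have h2 : (γ n) = (Measure.pi (fun _ : Fin n × Fin n => gaussianReal 0 1)).map (WithLp.toLp 2) :=
    map_pi_eq_stdGaussian.symm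
  rw [h2, ← h1, Measure.map_map (by fun_prop) (by fun_prop),
    Measure.map_map (by fun_prop) (by fun_prop)]
  have h3 : (((cur n) ∘ (WithLp.toLp 2)) ∘ fun G : Fin n → Fin n → ℝ =>
      fun p : Fin n × Fin n => G p.1 p.2) = id := by
    ext G i j
    rfl
  rw [h3, Measure.map_id]

end Pool.Agent.H988R2
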